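import Pool.Agent.N691.PQ.Gen
import Pool.Agent.N783.PQ.Lat

/-!
# Project PQ (helper783), parts PAR, PARQ, NS, P2: parities and square classes from the norm

Author: helper691, after the files of helper227 (project PJ) and helper862 (project PP) for `k[X]`.
-/

set_option autoImplicit false
set_option linter.all false

open Polynomial IsDedekindDomain WithZero UniqueFactorizationMonoid NumberField
open scoped Classical

namespace Pool.Agent.N691.PQ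

open Pool.Agent.N783.PQ (IsGen GoodS Cg rd dsc S_INT S_EXQ S_PAR S_PARQ S_NS S_P2)
open Pool.Agent.N874.PP (Ev Sq1 U0)
open Pool.Agent.N862.PP (val_eq ev_iff_count ev_mul_sq cn cn_sum cn_pow
  cn_zero cn_one not_ev_of_exp exists_two sq1_mul_sq)

section conv

variable {L : Type} [Field L] [NumberField L] {g : ℕ} {f : ℤ[X]} {θ : L}

theorem toG (h : IsGen g f θ) : IsG g ℚ f θ where
  mon := h.mon
  deg := h.deg
  root := h.root
  rank := h.rank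
  gen x := by
    obtain ⟨c, hc⟩ := h.gen x
    refine ⟨c, hc.trans (Finset.sum_congr rfl fun i _ => ?_)⟩
    rfl

theorem crd_iff {v : Fin (2 * g + 1) → ℤ} {x : L} :
    Pool.Agent.N783.PQ.Crd g θ v x ↔ Crd g θ v x := by
  unfold Pool.Agent.N783.PQ.Crd Crd
  simp only [algebraMap_int_eq, eq_intCast]

theorem int_iff (h : ∀ x : L, IsIntegral ℤ x ↔
    ∃ v : Fin (2 * g + 1) → ℤ, Pool.Agent.N783.PQ.Crd g θ v x) (x : L) :
    IsIntegral ℤ x ↔ ∃ v : Fin (2 * g + 1) → ℤ, Crd g θ v x := by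
  rw [h]
  simp only [crd_iff]

theorem ov_nat {p : ℕ} {𝔓 : HeightOneSpectrum (𝓞 L)} :
    Pool.Agent.N783.PQ.Ov p 𝔓 ↔ Ov (p : ℤ) 𝔓 := by
  unfold Pool.Agent.N783.PQ.Ov Ov
  rw [map_natCast]

theorem irr_nat {p : ℕ} (hp : p.Prime) : Irreducible (p : ℤ) :=
  (Nat.prime_iff_prime_int.1 hp).irreducible

end conv

/-- **PAR.** -/
theorem par (hInt : S_INT) : S_PAR := by
  intro g L _ _ f θ h0 hsq p hp 𝔓₀ c hov hθ x hx hnx hoth
  have hI := int_iff (hInt g L f θ h0 hsq)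
  have h := toG h0
  have hP : Irreducible (p : ℤ) := irr_nat hp
  obtain ⟨t, ht⟩ := exists_t (O := 𝓞 L) h
  have hov' : Ov (p : ℤ) 𝔓₀ := ov_nat.1 hov
  have hc : t - algebraMap ℤ (𝓞 L) c ∈ 𝔓₀.asIdeal := by
    rw [← 𝔓₀.valuation_lt_one_iff_mem (K := L)]
    change 𝔓₀.valuation L (algebraMap (𝓞 L) L (t - algebraMap ℤ (𝓞 L) c)) < 1
    rw [map_sub, ht, ← IsScalarTower.algebraMap_apply ℤ (𝓞 L) L]
    simpa using hθ
  have h1 := cn_deg_one h hI hP hov' ht hc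
  exact parity h hP 𝔓₀ hov' (by rw [h1]; exact odd_one) hx hnx
    fun 𝔓 ho hne => Or.inl (hoth 𝔓 (ov_nat.2 ho) hne)

theorem exq_z {L : Type} [Field L] [NumberField L] {θ : L} {q : ℕ}
    (h : ∃ 𝔓₁ 𝔮 : HeightOneSpectrum (𝓞 L), Pool.Agent.N783.PQ.Ov q 𝔓₁ ∧
      Pool.Agent.N783.PQ.Ov q 𝔮 ∧ 𝔓₁.valuation L θ < 1 ∧
      𝔮.valuation L θ = 1 ∧ 𝔓₁.valuation L (q : L) = WithZero.exp (-1 : ℤ) ∧
      𝔮.valuation L (q : L) = WithZero.exp (-1 : ℤ) ∧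
      ∀ 𝔓 : HeightOneSpectrum (𝓞 L), Pool.Agent.N783.PQ.Ov q 𝔓 → 𝔓 = 𝔓₁ ∨ 𝔓 = 𝔮) :
    ∃ 𝔓₁ 𝔮 : HeightOneSpectrum (𝓞 L), Ov (q : ℤ) 𝔓₁ ∧ Ov (q : ℤ) 𝔮 ∧ 𝔓₁.valuation L θ < 1 ∧
      𝔮.valuation L θ = 1 ∧ 𝔓₁.valuation L (algebraMap ℤ L (q : ℤ)) = WithZero.exp (-1 : ℤ) ∧
      𝔮.valuation L (algebraMap ℤ L (q : ℤ)) = WithZero.exp (-1 : ℤ) ∧
      ∀ 𝔓 : HeightOneSpectrum (𝓞 L), Ov (q : ℤ) 𝔓 → 𝔓 = 𝔓₁ ∨ 𝔓 = 𝔮 := by
  obtain ⟨𝔓₁, 𝔮, h1, h2, h3, h4, h5, h6, h7⟩ := h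
  rw [map_natCast]
  exact ⟨𝔓₁, 𝔮, ov_nat.1 h1, ov_nat.1 h2, h3, h4, h5, h6, fun 𝔓 h => h7 𝔓 (ov_nat.2 h)⟩

/-- **PARQ.** -/
theorem parq (hInt : S_INT) (hE : S_EXQ) : S_PARQ := by
  intro g W L _ _ f θ S hh hg h0 hsq hS q hQS hCg x hx hnx 𝔓 hov hθ
  have hI := int_iff (hInt g L f θ h0 hsq)
  have h := toG h0
  have hQ : Irreducible (q : ℤ) := irr_nat (hS q hQS).1
  obtain ⟨t, ht⟩ := exists_t (O := 𝓞 L) h
  obtain ⟨b, hb⟩ := exists_bas h hI ht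
  have hfin : Module.Finite ℤ (𝓞 L) := Module.Finite.of_basis b
  have hfree : Module.Free ℤ (𝓞 L) := Module.Free.of_basis b
  have htf : Module.IsTorsionFree ℤ (𝓞 L) := tf_O (K := ℚ) (L := L)
  obtain ⟨𝔓₁, 𝔮, ov1, ov2, hv1, hv2, hQ1, hQ2, hall⟩ :=
    exq_z (hE g W L f θ S hh hg h0 hsq hS q hQS hCg)
  rw [ov_nat] at hov
  have h𝔓 : 𝔓 = 𝔓₁ := by
    rcases hall 𝔓 hov with h' | h'
    · exact h'
    · rw [h', hv2] at hθ
      exact absurd hθ (lt_irrefl _)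
  have hne : 𝔓₁ ≠ 𝔮 := by
    intro h0
    rw [h0, hv2] at hv1
    exact absurd hv1 (lt_irrefl _)
  have ht1 : t ∈ 𝔓₁.asIdeal := by
    rw [← 𝔓₁.valuation_lt_one_iff_mem (K := L)]
    change 𝔓₁.valuation L (algebraMap (𝓞 L) L t) < 1
    rw [ht]
    exact hv1
  have hc1 : cn ℤ (Ideal.span {(q : ℤ)}) 𝔓₁.asIdeal = 1 :=
    cn_deg_one (c := 0) h hI hQ ov1 ht (by rw [map_zero, sub_zero]; exact ht1)
  have hQ0 : algebraMap ℤ (𝓞 L) (q : ℤ) ≠ 0 := by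
    intro h0
    exact hQ.ne_zero (algO_inj (K := ℚ) (L := L) (by rw [h0, map_zero]))
  have hcnt : ∀ 𝔓' : HeightOneSpectrum (𝓞 L), 𝔓'.valuation L (algebraMap ℤ L (q : ℤ)) = exp (-1 : ℤ) →
      (normalizedFactors (Ideal.span {algebraMap ℤ (𝓞 L) (q : ℤ)})).count 𝔓'.asIdeal = 1 := by
    intro 𝔓' h'
    have h1 := val_eq (L := L) 𝔓' hQ0
    rw [← IsScalarTower.algebraMap_apply ℤ (𝓞 L) L, h', exp_inj] at h1
    omega
  have hn : cn ℤ (Ideal.span {(q : ℤ)}) (Ideal.span {algebraMap ℤ (𝓞 L) (q : ℤ)} : Ideal (𝓞 L)) = 2 * g + 1 := by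
    have hn1 : Algebra.intNorm ℤ (𝓞 L) (algebraMap ℤ (𝓞 L) (q : ℤ)) = (q : ℤ) ^ (2 * g + 1) := by
      rw [Algebra.intNorm_eq_norm, Algebra.norm_algebraMap_of_basis b, Fintype.card_fin]
    have hirr : Irreducible (Ideal.span {(q : ℤ)} : Ideal ℤ) :=
      (Ideal.prime_of_isPrime (by simpa using hQ.ne_zero)
        ((Ideal.span_singleton_prime hQ.ne_zero).mpr hQ.prime)).irreducible
    unfold cn
    rw [Ideal.relNorm_singleton, hn1, ← Ideal.span_singleton_pow, normalizedFactors_pow,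
      Multiset.count_nsmul, normalizedFactors_irreducible hirr, normalize_eq,
      Multiset.count_singleton_self, mul_one]
  have hQI : (Ideal.span {algebraMap ℤ (𝓞 L) (q : ℤ)} : Ideal (𝓞 L)) ≠ ⊥ := by
    rw [Ne, Ideal.span_singleton_eq_bot]
    exact hQ0
  have hset : (normalizedFactors (Ideal.span {algebraMap ℤ (𝓞 L) (q : ℤ)} : Ideal (𝓞 L))).toFinset =
      {𝔓₁.asIdeal, 𝔮.asIdeal} := by
    ext J
    simp only [Multiset.mem_toFinset, Finset.mem_insert, Finset.mem_singleton]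
    constructor
    · intro hJ
      have hJp := prime_of_normalized_factor J hJ
      have hJ3 : J.IsPrime := Ideal.isPrime_of_prime hJp
      let 𝔓' : HeightOneSpectrum (𝓞 L) := ⟨J, hJ3, hJp.ne_zero⟩
      have hov' : Ov (q : ℤ) 𝔓' := by
        have h1 := dvd_of_mem_normalizedFactors hJ
        rw [Ideal.dvd_iff_le, Ideal.span_singleton_le_iff_mem] at h1
        exact h1
      rcases hall 𝔓' hov' with h' | h'
      · left
        rw [← h']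
      · right
        rw [← h']
    · rintro (rfl | rfl)
      · rw [← Multiset.one_le_count_iff_mem, hcnt 𝔓₁ hQ1]
      · rw [← Multiset.one_le_count_iff_mem, hcnt 𝔮 hQ2]
  have hc2 : cn ℤ (Ideal.span {(q : ℤ)}) 𝔮.asIdeal = 2 * g := by
    rw [cn_sum _ hQI, hset, Finset.sum_pair (fun h0 => hne (HeightOneSpectrum.ext h0)),
      hcnt 𝔓₁ hQ1, hcnt 𝔮 hQ2, hc1] at hn
    omega
  rw [h𝔓]
  refine parity h hQ 𝔓₁ ov1 (by rw [hc1]; exact odd_one) hx hnx fun 𝔓' ho hne' => Or.inr ?_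
  rcases hall 𝔓' ho with h' | h'
  · exact absurd h' hne'
  · rw [h', hc2]
    exact even_two_mul g

/-- **NS.** -/
theorem ns (hInt : S_INT) (hE : S_EXQ) : S_NS := by
  intro g W L _ _ f θ S hh hg h0 hsq hS q hQS hCg x hx hnx hev hs1 𝔓 hov
  have hI := int_iff (hInt g L f θ h0 hsq)
  have h := toG h0
  have hQ : Irreducible (q : ℤ) := irr_nat (hS q hQS).1
  obtain ⟨t, ht⟩ := exists_t (O := 𝓞 L) h
  obtain ⟨b, hb⟩ := exists_bas h hI ht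
  obtain ⟨𝔓₁, 𝔮, ov1, ov2, hv1, hv2, hQ1, hQ2, hall⟩ :=
    exq_z (hE g W L f θ S hh hg h0 hsq hS q hQS hCg)
  rw [ov_nat] at hov
  rcases hall 𝔓 hov with h𝔓 | h𝔓
  swap
  · rw [h𝔓]
    exact hs1 𝔮 (ov_nat.2 ov2) hv2
  rw [h𝔓]
  have hne : 𝔓₁ ≠ 𝔮 := by
    intro h0
    rw [h0, hv2] at hv1
    exact absurd hv1 (lt_irrefl _)
  have ht1 : t ∈ 𝔓₁.asIdeal := by
    rw [← 𝔓₁.valuation_lt_one_iff_mem (K := L)]
    change 𝔓₁.valuation L (algebraMap (𝓞 L) L t) < 1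
    rw [ht]
    exact hv1
  have hsq2 : Sq1 𝔮 x := hs1 𝔮 (ov_nat.2 ov2) hv2
  obtain ⟨y1, hy1⟩ := hev 𝔓₁ (ov_nat.2 ov1) hv1
  -- `Sq1` implies `Ev`
  obtain ⟨s, hs⟩ := hsq2
  have hvs : 𝔮.valuation L x = 𝔮.valuation L s ^ 2 := by
    have h3 : 𝔮.valuation L (x - (x - s ^ 2)) = 𝔮.valuation L x :=
      Valuation.map_sub_eq_of_lt_left _ hs
    rw [sub_sub_cancel, map_pow] at h3
    exact h3.symm
  have hvx1 : 𝔓₁.valuation L x ≠ 0 := (Valuation.ne_zero_iff _).mpr hx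
  have hvx2 : 𝔮.valuation L x ≠ 0 := (Valuation.ne_zero_iff _).mpr hx
  have hy10 : 𝔓₁.valuation L y1 ≠ 0 := by
    intro h0
    rw [h0] at hy1
    exact hvx1 (by rw [hy1]; simp)
  have hs0 : 𝔮.valuation L s ≠ 0 := by
    intro h0
    rw [h0] at hvs
    exact hvx2 (by rw [hvs]; simp)
  obtain ⟨β, hβ0, hβ1, hβ2⟩ := exists_two (L := L) hne (log (𝔓₁.valuation L y1))
    (log (𝔮.valuation L s))
  rw [exp_log hy10] at hβ1
  rw [exp_log hs0] at hβ2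
  -- `x / β ^ 2` is a unit at both primes
  have hu1 : 𝔓₁.valuation L (x / β ^ 2) = 1 := by
    rw [map_div₀, map_pow, hβ1, ← hy1, div_self hvx1]
  have hu2 : 𝔮.valuation L (x / β ^ 2) = 1 := by
    rw [map_div₀, map_pow, hβ2, ← hvs, div_self hvx2]
  obtain ⟨c, z, hc, hz⟩ := exists_den_Q (O := 𝓞 L) h ht hQ (x / β ^ 2) (by
    intro 𝔓' hov'
    rcases hall 𝔓' hov' with h' | h'
    · rw [h', hu1]
    · rw [h', hu2])
  have hc0 : algebraMap ℤ L c ≠ 0 := by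
    intro h0
    have : c = 0 := algL_inj (K := ℚ) (by rw [h0, map_zero])
    exact hc (by rw [this]; exact dvd_zero (q : ℤ))
  have hvc : ∀ 𝔓 : HeightOneSpectrum (𝓞 L), Ov (q : ℤ) 𝔓 → 𝔓.valuation L (algebraMap ℤ L c) = 1 := by
    intro 𝔓' hov'
    rw [IsScalarTower.algebraMap_apply ℤ (𝓞 L) L]
    refine 𝔓'.valuation_eq_one_iff_notMem.mpr ?_
    rw [ov_iff hQ hov']
    exact hc
  -- `y = c ^ 2 x / β ^ 2`
  have hy : algebraMap (𝓞 L) L (algebraMap ℤ (𝓞 L) c * z) = x * (algebraMap ℤ L c / β) ^ 2 := by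
    rw [map_mul, ← hz, ← IsScalarTower.algebraMap_apply ℤ (𝓞 L) L]
    field_simp
  have hcβ : algebraMap ℤ L c / β ≠ 0 := div_ne_zero hc0 hβ0
  rw [← sq1_mul_sq hcβ, ← hy]
  refine ns_int h hQ b hb hne ov1 ht1 hQ1 hQ2 hall ?_ ?_ ?_ ?_
  · rw [← 𝔓₁.valuation_eq_one_iff_notMem (K := L), hy, map_mul, map_pow, map_div₀, hvc 𝔓₁ ov1,
      hβ1, hy1, div_pow, one_pow, mul_one_div, div_self (pow_ne_zero 2 hy10)]
  · rw [← 𝔮.valuation_eq_one_iff_notMem (K := L), hy, map_mul, map_pow, map_div₀, hvc 𝔮 ov2,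
      hβ2, hvs, div_pow, one_pow, mul_one_div, div_self (pow_ne_zero 2 hs0)]
  · rw [hy, map_mul, map_pow]
    exact hnx.mul (IsSquare.sq _)
  · rw [hy, sq1_mul_sq hcβ]
    exact ⟨s, hs⟩

section two

variable {L : Type} [Field L] [NumberField L] {g : ℕ} {f : ℤ[X]} {θ : L}

/-- The residue field of a prime over `2` is large. -/
theorem card_two (h : IsGen g f θ) (hf : Irreducible (rd 2 f)) {𝔓 : HeightOneSpectrum (𝓞 L)}
    (hov : Ov (2 : ℤ) 𝔓) : 2 ^ (2 * g + 1) ≤ Ideal.absNorm 𝔓.asIdeal := by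
  obtain ⟨t, ht⟩ := exists_t (O := 𝓞 L) (toG h)
  have hroot : aeval t f = 0 := by
    apply IsFractionRing.injective (𝓞 L) L
    rw [← aeval_algebraMap_apply, ht, map_zero]
    exact h.root
  have h2 : ((2 : ℕ) : 𝓞 L ⧸ 𝔓.asIdeal) = 0 := by
    have h3 : Ideal.Quotient.mk 𝔓.asIdeal (algebraMap ℤ (𝓞 L) 2) = 0 :=
      Ideal.Quotient.eq_zero_iff_mem.2 hov
    have h4 : ((2 : ℕ) : 𝓞 L ⧸ 𝔓.asIdeal) =
        Ideal.Quotient.mk 𝔓.asIdeal (algebraMap ℤ (𝓞 L) 2) := by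
      rw [algebraMap_int_eq, eq_intCast, map_intCast]
      norm_cast
    rw [h4, h3]
  have hmax := 𝔓.isMaximal
  have hnt : Nontrivial (𝓞 L ⧸ 𝔓.asIdeal) := Ideal.Quotient.nontrivial_iff.2 hmax.ne_top
  letI : Field (𝓞 L ⧸ 𝔓.asIdeal) := Ideal.Quotient.field _
  haveI : Finite (𝓞 L ⧸ 𝔓.asIdeal) := Ideal.finiteQuotientOfFreeOfNeBot _ 𝔓.ne_bot
  haveI : CharP (𝓞 L ⧸ 𝔓.asIdeal) 2 := by
    refine (CharP.charP_iff_prime_eq_zero Nat.prime_two).2 h2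
  letI : Algebra (ZMod 2) (𝓞 L ⧸ 𝔓.asIdeal) := ZMod.algebra _ 2
  haveI : Module.Finite (ZMod 2) (𝓞 L ⧸ 𝔓.asIdeal) := Module.Finite.of_finite
  have hr : aeval (Ideal.Quotient.mk 𝔓.asIdeal t) (rd 2 f) = 0 := by
    rw [aeval_def, eval₂_map]
    have h3 : (algebraMap (ZMod 2) (𝓞 L ⧸ 𝔓.asIdeal)).comp (Int.castRingHom (ZMod 2)) =
        (Ideal.Quotient.mk 𝔓.asIdeal).comp (algebraMap ℤ (𝓞 L)) := RingHom.ext_int _ _
    rw [h3, ← hom_eval₂]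
    have h4 : eval₂ (algebraMap ℤ (𝓞 L)) t f = 0 := hroot
    rw [h4, map_zero]
  have hm := minpoly.eq_of_irreducible_of_monic hf hr (h.mon.map _)
  have hd := minpoly.natDegree_le (A := ZMod 2) (Ideal.Quotient.mk 𝔓.asIdeal t)
  rw [← hm, h.mon.natDegree_map, h.deg] at hd
  have hc : Nat.card (𝓞 L ⧸ 𝔓.asIdeal) = 2 ^ Module.finrank (ZMod 2) (𝓞 L ⧸ 𝔓.asIdeal) := by
    rw [Module.natCard_eq_pow_finrank (K := ZMod 2), Nat.card_zmod]
  have ha : Ideal.absNorm 𝔓.asIdeal = Nat.card (𝓞 L ⧸ 𝔓.asIdeal) := by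
    rw [Ideal.absNorm_apply]
    rfl
  rw [ha, hc]
  exact Nat.pow_le_pow_right (by norm_num) hd

theorem norm_two (h : IsGen g f θ) : Algebra.norm ℤ (algebraMap ℤ (𝓞 L) 2) = 2 ^ (2 * g + 1) := by
  rw [Algebra.norm_algebraMap_of_basis (RingOfIntegers.basis L)]
  congr 1
  rw [← Module.finrank_eq_card_chooseBasisIndex, RingOfIntegers.rank, h.rank]

/-- `2` is inert. -/
theorem eq_two (h : IsGen g f θ) (hf : Irreducible (rd 2 f)) {𝔓 : HeightOneSpectrum (𝓞 L)}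
    (hov : Ov (2 : ℤ) 𝔓) : 𝔓.asIdeal = Ideal.span {algebraMap ℤ (𝓞 L) 2} := by
  have h1 := card_two h hf hov
  have h2 : 𝔓.asIdeal ∣ Ideal.span {algebraMap ℤ (𝓞 L) 2} := by
    rw [Ideal.dvd_span_singleton]
    exact hov
  obtain ⟨J, hJ⟩ := h2
  have h3 := congrArg Ideal.absNorm hJ
  rw [Ideal.absNorm_span_singleton, norm_two h, map_mul, Int.natAbs_pow] at h3
  have h4 : Ideal.absNorm J = 1 := by
    have h5 : Ideal.absNorm J ≠ 0 := by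
      intro h0
      rw [h0, mul_zero] at h3
      exact absurd h3 (by positivity)
    have h6 : (0 : ℕ) < 2 ^ (2 * g + 1) := by positivity
    have h7 : (2 : ℤ).natAbs = 2 := rfl
    rw [h7] at h3
    by_contra hne
    have h8 : 2 ≤ Ideal.absNorm J := by omega
    have h9 := Nat.mul_le_mul h1 h8
    rw [← h3] at h9
    omega
  rw [Ideal.absNorm_eq_one_iff] at h4
  rw [hJ, h4, Ideal.mul_top]

end two

/-- **P2.** -/
theorem p2 : S_P2 := by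
  intro g L _ _ f θ h hf x hx hnx 𝔓 hov
  have hG := toG h
  have hov' : Ov (2 : ℤ) 𝔓 := by simpa using ov_nat.1 hov
  have hP : Irreducible (2 : ℤ) := Int.prime_two.irreducible
  have he := eq_two h hf hov'
  have hc : cn ℤ (Ideal.span {(2 : ℤ)}) 𝔓.asIdeal = 2 * g + 1 := by
    have hn1 : Algebra.intNorm ℤ (𝓞 L) (algebraMap ℤ (𝓞 L) 2) = 2 ^ (2 * g + 1) := by
      rw [Algebra.intNorm_eq_norm, norm_two h]
    have hirr : Irreducible (Ideal.span {(2 : ℤ)} : Ideal ℤ) :=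
      (Ideal.prime_of_isPrime (by simpa using hP.ne_zero)
        ((Ideal.span_singleton_prime hP.ne_zero).mpr hP.prime)).irreducible
    unfold cn
    rw [he, Ideal.relNorm_singleton, hn1, ← Ideal.span_singleton_pow, normalizedFactors_pow,
      Multiset.count_nsmul, normalizedFactors_irreducible hirr, normalize_eq,
      Multiset.count_singleton_self, mul_one]
  refine parity hG hP 𝔓 hov' (by rw [hc]; exact ⟨g, rfl⟩) hx hnx fun 𝔓' ho hne => ?_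
  exact absurd (HeightOneSpectrum.ext ((eq_two h hf ho).trans he.symm)) hne

end Pool.Agent.N691.PQ

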