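import Pool.Agent.N862.PP.Ns

/-!
# Norms, parities, square classes over a principal ideal domain (project PQ of helper783)

The files of helper227 (project PJ) and helper862 (project PP) for `k[X]`, for a general principal
ideal domain `R` (port by helper691).
-/

set_option autoImplicit false
set_option linter.all false

open Polynomial IsDedekindDomain WithZero UniqueFactorizationMonoid
open scoped Classical

namespace Pool.Agent.N691.PQ

open Pool.Agent.N874.PP (Ev Sq1 U0)
open Pool.Agent.N862.PP (val_eq ev_iff_count ev_mul_sq cn cn_sum cn_pow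
  cn_zero cn_one not_ev_of_exp exists_two sq1_mul_sq)

section gen

variable {R L : Type} [CommRing R] [Field L] [Algebra R L]

/-- `L = K(θ)` is of degree `2 g + 1` over `K` and `f(θ) = 0`. -/
structure IsG (g : ℕ) (K : Type) [Field K] [Algebra K L] (f : R[X]) (θ : L) : Prop where
  mon : f.Monic
  deg : f.natDegree = 2 * g + 1
  root : eval₂ (algebraMap R L) θ f = 0
  rank : Module.finrank K L = 2 * g + 1
  gen : ∀ x : L, ∃ c : Fin (2 * g + 1) → K, x = ∑ i, algebraMap K L (c i) * θ ^ (i : ℕ)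

variable {g : ℕ} {K : Type} [Field K] [Algebra K L] {f : R[X]} {θ : L}

theorem IsG.span (h : IsG g K f θ) :
    ⊤ ≤ Submodule.span K (Set.range fun i : Fin (2 * g + 1) => θ ^ (i : ℕ)) := by
  intro x _
  obtain ⟨c, rfl⟩ := h.gen x
  refine Submodule.sum_mem _ fun i _ => ?_
  rw [← Algebra.smul_def]
  exact Submodule.smul_mem _ _ (Submodule.subset_span ⟨i, rfl⟩)

/-- The basis `1`, `θ`, ..., `θ ^ (2 g)`. -/
noncomputable def IsG.basis (h : IsG g K f θ) : Module.Basis (Fin (2 * g + 1)) K L :=
  basisOfTopLeSpanOfCardEqFinrank (fun i : Fin (2 * g + 1) => θ ^ (i : ℕ)) h.span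
    (by rw [h.rank, Fintype.card_fin])

theorem IsG.basis_apply (h : IsG g K f θ) (i : Fin (2 * g + 1)) :
    h.basis i = θ ^ (i : ℕ) := by
  rw [IsG.basis, coe_basisOfTopLeSpanOfCardEqFinrank]

/-- `x = v 0 + v 1 θ + ... + v (2 g) θ ^ (2 g)`. -/
def Crd (g : ℕ) (θ : L) (v : Fin (2 * g + 1) → R) (x : L) : Prop :=
  x = ∑ i, algebraMap R L (v i) * θ ^ (i : ℕ)

/-- The prime `𝔓` divides `Q`. -/
def Ov {O : Type} [CommRing O] [IsDedekindDomain O] [Algebra R O] (Q : R)
    (𝔓 : HeightOneSpectrum O) : Prop := algebraMap R O Q ∈ 𝔓.asIdeal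

end gen

section basic

variable {R K L O : Type} [CommRing R] [IsDomain R] [IsPrincipalIdealRing R] [Field K]
  [Algebra R K] [IsFractionRing R K]
  [Field L] [Algebra K L] [Algebra R L] [IsScalarTower R K L] [CommRing O]
  [IsDedekindDomain O] [Algebra O L] [IsFractionRing O L] [Algebra R O]
  [IsScalarTower R O L] [IsIntegralClosure O R L] {g : ℕ} {f : R[X]} {θ : L}

theorem inj : Function.Injective (algebraMap R K) := IsFractionRing.injective R K

include K in
theorem algL_inj : Function.Injective (algebraMap R L) := by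
  rw [IsScalarTower.algebraMap_eq R K L]
  exact (algebraMap K L).injective.comp (IsFractionRing.injective R K)

theorem isInt (x : O) : IsIntegral R (algebraMap O L x) :=
  (IsIntegralClosure.isIntegral_iff (R := R) (A := O)).mpr ⟨x, rfl⟩

include K L in
theorem algO_inj : Function.Injective (algebraMap R O) := by
  have h : Function.Injective (algebraMap R L) := algL_inj (K := K)
  rw [IsScalarTower.algebraMap_eq R O L] at h
  exact Function.Injective.of_comp h

/-- a prime over `Q` meets `R` in `(Q)` -/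
theorem ov_iff {Q : R} (hQ : Irreducible Q) {𝔓 : HeightOneSpectrum O} (hov : Ov Q 𝔓)
    (c : R) : algebraMap R O c ∈ 𝔓.asIdeal ↔ Q ∣ c := by
  constructor
  · intro hc
    by_contra hn
    have hcop : IsCoprime Q c := (hQ.coprime_iff_not_dvd).mpr hn
    obtain ⟨u, v, huv⟩ := hcop
    have : algebraMap R O (u * Q + v * c) ∈ 𝔓.asIdeal := by
      rw [map_add, map_mul, map_mul]
      exact Ideal.add_mem _ (Ideal.mul_mem_left _ _ hov) (Ideal.mul_mem_left _ _ hc)
    rw [huv, map_one] at this
    exact 𝔓.isPrime.ne_top ((Ideal.eq_top_iff_one _).mpr this)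
  · rintro ⟨d, rfl⟩
    rw [map_mul]
    exact Ideal.mul_mem_right _ _ hov

include K L in
theorem tf_O : Module.IsTorsionFree R O := by
  have : FaithfulSMul R O := (faithfulSMul_iff_algebraMap_injective R O).mpr
    (algO_inj (K := K) (L := L))
  infer_instance

/-- coordinates -/
noncomputable def co (h : IsG g K f θ) (i : Fin (2 * g + 1)) : L →ₗ[K] K := h.basis.coord i

lemma co_pow (h : IsG g K f θ) (i j : Fin (2 * g + 1)) :
    co h i (θ ^ (j : ℕ)) = if j = i then 1 else 0 := by
  rw [co, ← h.basis_apply, Module.Basis.coord_apply, Module.Basis.repr_self,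
    Finsupp.single_apply]

lemma co_sum (h : IsG g K f θ) (c : Fin (2 * g + 1) → K) (i : Fin (2 * g + 1)) :
    co h i (∑ j, algebraMap K L (c j) * θ ^ (j : ℕ)) = c i := by
  rw [map_sum]
  have h1 : ∀ j : Fin (2 * g + 1), co h i (algebraMap K L (c j) * θ ^ (j : ℕ)) =
      c j * if j = i then 1 else 0 := fun j => by
    rw [← Algebra.smul_def, map_smul, co_pow, smul_eq_mul]
  simp only [h1]
  simp

lemma ext_co (h : IsG g K f θ) (x : L) :
    x = ∑ j, algebraMap K L (co h j x) * θ ^ (j : ℕ) := by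
  obtain ⟨c, hc⟩ := h.gen x
  have h1 : ∀ j, co h j x = c j := fun j => by
    rw [hc, co_sum]
  simp only [h1]
  exact hc

lemma crd_co (h : IsG g K f θ) {v : Fin (2 * g + 1) → R} {x : L} (hv : Crd g θ v x)
    (i : Fin (2 * g + 1)) : co h i x = algebraMap R K (v i) := by
  have e : x = ∑ j, algebraMap K L (algebraMap R K (v j)) * θ ^ (j : ℕ) := by
    rw [hv]
    refine Finset.sum_congr rfl fun j _ => ?_
    rw [← IsScalarTower.algebraMap_apply]
  rw [e, co_sum]

lemma crd_of_co (h : IsG g K f θ) {v : Fin (2 * g + 1) → R} {x : L}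
    (hv : ∀ i, co h i x = algebraMap R K (v i)) : Crd g θ v x := by
  unfold Crd
  conv_lhs => rw [ext_co h x]
  refine Finset.sum_congr rfl fun j _ => ?_
  rw [hv j, ← IsScalarTower.algebraMap_apply]

lemma smul_alg (p : R) (x : L) : algebraMap R L p * x = algebraMap R K p • x := by
  rw [Algebra.smul_def, ← IsScalarTower.algebraMap_apply]

/-- `f` is the minimal polynomial -/
lemma irrK (h : IsG g K f θ) : Irreducible (f.map (algebraMap R K)) := by
  let pb : PowerBasis K L := ⟨θ, 2 * g + 1, h.basis, fun i => h.basis_apply i⟩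
  have hdeg : (minpoly K θ).natDegree = 2 * g + 1 := pb.natDegree_minpoly
  have hint : IsIntegral K θ := pb.isIntegral_gen
  have hmon : (f.map (algebraMap R K)).Monic := h.mon.map _
  have h0 : aeval θ (f.map (algebraMap R K)) = 0 := by
    rw [aeval_map_algebraMap]
    exact h.root
  have hd : minpoly K θ ∣ f.map (algebraMap R K) := minpoly.dvd K θ h0
  have he : f.map (algebraMap R K) = minpoly K θ :=
    Polynomial.eq_of_monic_of_dvd_of_natDegree_le (minpoly.monic hint) hmon hd (by
      rw [hdeg, h.mon.natDegree_map, h.deg])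
  rw [he]
  exact minpoly.irreducible hint

lemma theta_int (h : IsG g K f θ) : IsIntegral R θ := ⟨f, h.mon, h.root⟩


end basic

section bas

variable {R K L O : Type} [CommRing R] [IsDomain R] [IsPrincipalIdealRing R] [Field K]
  [Algebra R K] [IsFractionRing R K]
  [Field L] [Algebra K L] [Algebra R L] [IsScalarTower R K L] [CommRing O]
  [IsDedekindDomain O] [Algebra O L] [IsFractionRing O L] [Algebra R O]
  [IsScalarTower R O L] [IsIntegralClosure O R L] {g : ℕ} {f : R[X]} {θ : L}


theorem exists_t (h : IsG g K f θ) : ∃ t : O, algebraMap O L t = θ :=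
  (IsIntegralClosure.isIntegral_iff (R := R) (A := O)).mp (theta_int h)

theorem sum_t {t : O} (ht : algebraMap O L t = θ) (v : Fin (2 * g + 1) → R) :
    algebraMap O L (∑ i, v i • t ^ (i : ℕ)) = ∑ i, algebraMap R L (v i) * θ ^ (i : ℕ) := by
  rw [map_sum]
  refine Finset.sum_congr rfl fun i _ => ?_
  rw [Algebra.smul_def, map_mul, map_pow, ht, ← IsScalarTower.algebraMap_apply R O L]

/-- the basis -/
theorem exists_bas (h : IsG g K f θ)
    (hI : ∀ x : L, IsIntegral R x ↔ ∃ v : Fin (2 * g + 1) → R, Crd g θ v x)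
    {t : O} (ht : algebraMap O L t = θ) :
    ∃ b : Module.Basis (Fin (2 * g + 1)) R O, ∀ i, b i = t ^ (i : ℕ) := by
  have hli : LinearIndependent R (fun i : Fin (2 * g + 1) => t ^ (i : ℕ)) := by
    rw [Fintype.linearIndependent_iff]
    intro v hv i
    have h1 := sum_t ht v
    rw [hv, map_zero] at h1
    have h2 : Crd g θ v (0 : L) := h1
    have h3 := crd_co h h2 i
    rw [map_zero] at h3
    exact (map_eq_zero_iff _ (inj (R := R) (K := K))).1 h3.symm
  have hsp : ⊤ ≤ Submodule.span R (Set.range fun i : Fin (2 * g + 1) => t ^ (i : ℕ)) := by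
    intro x _
    obtain ⟨v, hv⟩ := (hI _).1 (isInt (L := L) x)
    have h1 : x = ∑ i, v i • t ^ (i : ℕ) := by
      apply IsFractionRing.injective O L
      rw [sum_t ht]
      exact hv
    rw [h1]
    exact Submodule.sum_mem _ fun i _ => Submodule.smul_mem _ _ (Submodule.subset_span ⟨i, rfl⟩)
  exact ⟨Module.Basis.mk hli hsp, fun i => by rw [Module.Basis.mk_apply]⟩

theorem fd (h : IsG g K f θ) : FiniteDimensional K L :=
  Module.finite_of_finrank_pos (by rw [h.rank]; omega)

theorem norm_alg (h : IsG g K f θ) (b : Module.Basis (Fin (2 * g + 1)) R O) (y : O) :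
    algebraMap R K (Algebra.norm R y) = Algebra.norm K (algebraMap O L y) := by
  have hfree : Module.Free R O := Module.Free.of_basis b
  have hfin : Module.Finite R O := Module.Finite.of_basis b
  have hfd := fd h
  rw [← Algebra.algebraMap_intNorm (A := R) (B := O) (L := L), Algebra.intNorm_eq_norm]

/-- the characteristic polynomial of `θ` -/
theorem minp (h : IsG g K f θ) : minpoly K θ = f.map (algebraMap R K) := by
  let pb : PowerBasis K L := ⟨θ, 2 * g + 1, h.basis, fun i => h.basis_apply i⟩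
  have hint : IsIntegral K θ := pb.isIntegral_gen
  have h0 : aeval θ (f.map (algebraMap R K)) = 0 := by
    rw [aeval_map_algebraMap]
    exact h.root
  exact (minpoly.eq_of_irreducible_of_monic (irrK h) h0 (h.mon.map _)).symm

theorem norm_lin (h : IsG g K f θ) (c : R) :
    Algebra.norm K (algebraMap R L c - θ) = algebraMap R K (f.eval c) := by
  let pb : PowerBasis K L := ⟨θ, 2 * g + 1, h.basis, fun i => h.basis_apply i⟩
  have h1 : (Algebra.leftMulMatrix h.basis θ).charpoly = f.map (algebraMap R K) :=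
    (charpoly_leftMulMatrix pb).trans (minp h)
  have h2 := congrArg (Polynomial.eval (algebraMap R K c)) h1
  rw [Matrix.eval_charpoly] at h2
  have h3 : (f.map (algebraMap R K)).eval (algebraMap R K c) =
      algebraMap R K (f.eval c) := Polynomial.eval_map_apply (algebraMap R K) c
  rw [h3] at h2
  rw [← h2, Algebra.norm_eq_matrix_det h.basis, map_sub]
  congr 2
  rw [IsScalarTower.algebraMap_apply R K L, AlgHom.commutes]
  rfl

theorem sqf_root (h : IsG g K f θ)
    (hI : ∀ x : L, IsIntegral R x ↔ ∃ v : Fin (2 * g + 1) → R, Crd g θ v x)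
    {t : O} (ht : algebraMap O L t = θ) {P : R} (hP : Irreducible P) (c : R) :
    ∃ c', P ∣ c' - c ∧ ¬ P ^ 2 ∣ f.eval c' := by
  by_contra hno
  push Not at hno
  obtain ⟨e, he⟩ := hno c (by simp)
  obtain ⟨e', he'⟩ := hno (c + P) (by simp)
  set q := f /ₘ (X - C c) with hq
  have hfq : f = C (f.eval c) + (X - C c) * q := by
    have := modByMonic_add_div f (X - C c)
    rw [modByMonic_X_sub_C_eq_C_eval] at this
    exact this.symm
  set q2 := q /ₘ (X - C (c + P)) with hq2
  have hqq : q = C (q.eval (c + P)) + (X - C (c + P)) * q2 := by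
    have := modByMonic_add_div q (X - C (c + P))
    rw [modByMonic_X_sub_C_eq_C_eval] at this
    exact this.symm
  have h1 : q.eval (c + P) = P * (e' - e) := by
    have h2 := congrArg (Polynomial.eval (c + P)) hfq
    simp only [eval_add, eval_C, eval_mul, eval_sub, eval_X] at h2
    rw [he, he'] at h2
    refine mul_left_cancel₀ hP.ne_zero ?_
    linear_combination -h2
  have hdeg : f.natDegree = 2 * g + 1 := h.deg
  have hqd : q.natDegree = 2 * g := by
    rw [hq, natDegree_divByMonic f (monic_X_sub_C c), hdeg, natDegree_X_sub_C]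
    omega
  have hqm : q.coeff (2 * g) = 1 := by
    have h2 : q.leadingCoeff = f.leadingCoeff := by
      refine leadingCoeff_divByMonic_of_monic (monic_X_sub_C c) ?_
      rw [degree_X_sub_C, degree_eq_natDegree h.mon.ne_zero, hdeg]
      exact_mod_cast (by omega : 1 ≤ 2 * g + 1)
    rw [h.mon.leadingCoeff] at h2
    rw [← hqd]
    exact h2
  have hPL : algebraMap R L P ≠ 0 := fun h0 =>
    hP.ne_zero (algL_inj (R := R) (K := K) (by rw [h0, map_zero]))
  -- the values at `θ`
  have hroot : aeval θ f = 0 := h.root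
  have e1 : algebraMap R L (P ^ 2 * e) + (θ - algebraMap R L c) * aeval θ q = 0 := by
    rw [← hroot]
    conv_rhs => rw [hfq]
    rw [he]
    simp only [map_add, map_mul, map_sub, aeval_C, aeval_X]
  have e2 : aeval θ q = algebraMap R L (P * (e' - e)) +
      (θ - algebraMap R L (c + P)) * aeval θ q2 := by
    conv_lhs => rw [hqq]
    rw [h1]
    simp only [map_add, map_mul, map_sub, aeval_C, aeval_X]
  have hA : ∃ A : O, algebraMap O L A = aeval θ q2 := by
    refine ⟨aeval t q2, ?_⟩
    rw [← ht, aeval_algebraMap_apply]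
  obtain ⟨A, hA⟩ := hA
  obtain ⟨y, hy⟩ : ∃ y : L, aeval θ q = algebraMap R L P * y :=
    ⟨aeval θ q / algebraMap R L P, by field_simp⟩
  have hyint : IsIntegral O y := by
    refine ⟨X ^ 2 + C (A - algebraMap R O (e' - e)) * X + C (algebraMap R O e * A), ?_, ?_⟩
    · monicity!
    · simp only [eval₂_add, eval₂_mul, eval₂_pow, eval₂_sub, eval₂_X, eval₂_C, map_sub, map_mul, hA,
        ← IsScalarTower.algebraMap_apply R O L]
      rw [hy] at e1 e2
      simp only [map_mul, map_sub, map_add, map_pow] at e1 e2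
      set p := algebraMap R L P
      set θc := algebraMap R L c
      set εe := algebraMap R L e
      set εe' := algebraMap R L e'
      set B := aeval θ q2
      have e3 : (θ - θc) * y = - (p * εe) := by
        refine mul_left_cancel₀ hPL ?_
        linear_combination e1
      refine mul_left_cancel₀ hPL ?_
      linear_combination y * e2 + B * e3
  obtain ⟨y', hy'⟩ := IsIntegrallyClosed.isIntegral_iff.mp hyint
  obtain ⟨v, hv⟩ := (hI _).1 (isInt (L := L) y')
  rw [hy'] at hv
  have hcq : Crd g θ (fun i : Fin (2 * g + 1) => q.coeff i) (aeval θ q) := by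
    unfold Crd
    rw [aeval_eq_sum_range' (n := 2 * g + 1) (by omega), Finset.sum_range]
    refine Finset.sum_congr rfl fun i _ => ?_
    rw [Algebra.smul_def]
  have h3 := crd_co h hcq (Fin.last (2 * g))
  rw [hy, smul_alg (K := K), map_smul, crd_co h hv, smul_eq_mul, ← map_mul] at h3
  have h4 := inj (R := R) (K := K) h3
  simp only [Fin.val_last, hqm] at h4
  exact hP.not_isUnit (IsUnit.of_mul_eq_one _ h4)

/-- primes of degree one -/
theorem cn_deg_one [Module.Finite R O] [Module.IsTorsionFree R O] (h : IsG g K f θ)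
    (hI : ∀ x : L, IsIntegral R x ↔ ∃ v : Fin (2 * g + 1) → R, Crd g θ v x)
    {P : R} (hP : Irreducible P) {𝔓 : HeightOneSpectrum O}
    (hov : Ov P 𝔓) {t : O} (ht : algebraMap O L t = θ) {c : R}
    (hc : t - algebraMap R O c ∈ 𝔓.asIdeal) :
    cn R (Ideal.span {P}) 𝔓.asIdeal = 1 := by
  have hfd := fd h
  have hpp : (Ideal.span {P} : Ideal R).IsPrime :=
    (Ideal.span_singleton_prime hP.ne_zero).mpr hP.prime
  have hpb : (Ideal.span {P} : Ideal R) ≠ ⊥ := by
    rw [Ne, Ideal.span_singleton_eq_bot]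
    exact hP.ne_zero
  obtain ⟨c', ⟨d, hd⟩, hc'⟩ := sqf_root (K := K) h hI ht hP c
  refine cn_one hpp hpb 𝔓.isPrime ?_ (z := algebraMap R O c' - t) ?_ ?_
  · ext x
    rw [Ideal.mem_comap, ov_iff hP hov, Ideal.mem_span_singleton]
  · have h1 : algebraMap R O c' - t = algebraMap R O d * algebraMap R O P -
        (t - algebraMap R O c) := by
      have hd' : c' = c + P * d := by linear_combination hd
      rw [hd', map_add, map_mul]
      ring
    rw [h1]
    exact 𝔓.asIdeal.sub_mem (𝔓.asIdeal.mul_mem_left _ hov) hc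
  · have h1 : Algebra.intNorm R O (algebraMap R O c' - t) = f.eval c' := by
      apply inj (R := R) (K := K)
      rw [Algebra.algebraMap_intNorm (L := L), map_sub, ht,
        ← IsScalarTower.algebraMap_apply R O L, norm_lin h]
    rw [h1, Ideal.span_singleton_pow, Ideal.mem_span_singleton]
    exact hc'

/-- Parity. -/
theorem parity [Module.Finite R O] [Module.IsTorsionFree R O] (h : IsG g K f θ)
    {P : R} (hP : Irreducible P) (𝔓₀ : HeightOneSpectrum O) (hov : Ov P 𝔓₀)
    (hodd : Odd (cn R (Ideal.span {P}) 𝔓₀.asIdeal)) {x : L} (hx : x ≠ 0)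
    (hsq : IsSquare (Algebra.norm K x))
    (hoth : ∀ 𝔓 : HeightOneSpectrum O, Ov P 𝔓 → 𝔓 ≠ 𝔓₀ → Ev 𝔓 x ∨
      Even (cn R (Ideal.span {P}) 𝔓.asIdeal)) : Ev 𝔓₀ x := by
  have hfd := fd h
  obtain ⟨z₁, w, hw, rfl⟩ := IsFractionRing.div_surjective (A := O) x
  have hw0 : w ≠ 0 := nonZeroDivisors.ne_zero hw
  have hwL : algebraMap O L w ≠ 0 := by
    simpa using hw0
  -- `z = z₁ w`
  have hz0 : z₁ * w ≠ 0 := by
    rintro h0
    rcases mul_eq_zero.mp h0 with rfl | h0
    · simp at hx
    · exact hw0 h0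
  have hxz : algebraMap O L z₁ / algebraMap O L w * algebraMap O L w ^ 2 =
      algebraMap O L (z₁ * w) := by
    rw [map_mul]
    field_simp
  have hev : ∀ 𝔓 : HeightOneSpectrum O, Ev 𝔓 (algebraMap O L z₁ / algebraMap O L w) ↔
      Even ((normalizedFactors (Ideal.span {z₁ * w})).count 𝔓.asIdeal) := by
    intro 𝔓
    rw [← ev_mul_sq 𝔓 hwL, hxz, ev_iff_count 𝔓 hz0]
  have hpp : (Ideal.span {P} : Ideal R).IsPrime :=
    (Ideal.span_singleton_prime hP.ne_zero).mpr hP.prime
  have hpb : (Ideal.span {P} : Ideal R) ≠ ⊥ := by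
    rw [Ne, Ideal.span_singleton_eq_bot]
    exact hP.ne_zero
  -- the norm is a square
  have hnsq : ∃ m : R, Algebra.intNorm R O (z₁ * w) = m * m := by
    have h1 : IsSquare (algebraMap R K (Algebra.intNorm R O (z₁ * w))) := by
      rw [Algebra.algebraMap_intNorm (L := L), ← hxz, map_mul, map_pow]
      exact hsq.mul (IsSquare.sq _)
    obtain ⟨r, hr⟩ := h1
    have hint : IsIntegral R r := by
      refine IsIntegral.of_pow (n := 2) (by norm_num) ?_
      rw [sq, ← hr]
      exact isIntegral_algebraMap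
    obtain ⟨m, rfl⟩ := IsIntegrallyClosed.isIntegral_iff.mp hint
    exact ⟨m, IsFractionRing.injective R K (by rw [hr, map_mul])⟩
  obtain ⟨m, hm⟩ := hnsq
  have hzI : (Ideal.span {z₁ * w} : Ideal O) ≠ ⊥ := by
    rw [Ne, Ideal.span_singleton_eq_bot]
    exact hz0
  have hm0 : m ≠ 0 := by
    rintro rfl
    have := (Algebra.intNorm_eq_zero (A := R) (B := O)).mp (hm.trans (mul_zero _))
    exact hz0 this
  have heven : Even (cn R (Ideal.span {P}) (Ideal.span {z₁ * w} : Ideal O)) := by
    unfold cn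
    rw [Ideal.relNorm_singleton, hm, ← Ideal.span_singleton_mul_span_singleton,
      normalizedFactors_mul, Multiset.count_add]
    · exact ⟨_, rfl⟩
    · simpa using hm0
    · simpa using hm0
  rw [cn_sum _ hzI] at heven
  rw [hev]
  by_cases hmem : 𝔓₀.asIdeal ∈ (normalizedFactors (Ideal.span {z₁ * w} : Ideal O)).toFinset
  · rw [← Finset.add_sum_erase _ _ hmem] at heven
    have hrest : Even (∑ J ∈ (normalizedFactors (Ideal.span {z₁ * w} : Ideal O)).toFinset.erase
        𝔓₀.asIdeal, (normalizedFactors (Ideal.span {z₁ * w} : Ideal O)).count J *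
          cn R (Ideal.span {P}) J) := by
      apply Finset.even_sum
      intro J hJ
      rw [Finset.mem_erase, Multiset.mem_toFinset] at hJ
      obtain ⟨hJ1, hJ2⟩ := hJ
      have hJp := prime_of_normalized_factor J hJ2
      have hJ3 : J.IsPrime := Ideal.isPrime_of_prime hJp
      by_cases hJP : (Ideal.span {P} : Ideal R) ≤ J.comap (algebraMap R O)
      · let 𝔓 : HeightOneSpectrum O := ⟨J, hJ3, hJp.ne_zero⟩
        have hov' : Ov P 𝔓 := hJP (Ideal.mem_span_singleton_self P)
        have hne : 𝔓 ≠ 𝔓₀ := fun h0 => hJ1 (by rw [← h0])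
        rcases hoth 𝔓 hov' hne with h1 | h1
        · exact ((hev 𝔓).mp h1).mul_right _
        · exact h1.mul_left _
      · rw [cn_zero hpp hpb hJ3 hJp.ne_zero hJP, mul_zero]
        exact ⟨0, rfl⟩
    have h1 := (Nat.even_add.mp heven).mpr hrest
    rcases Nat.even_mul.mp h1 with h2 | h2
    · exact h2
    · exact absurd h2 (Nat.not_even_iff_odd.mpr hodd)
  · rw [Multiset.mem_toFinset] at hmem
    rw [Multiset.count_eq_zero_of_notMem hmem]
    exact ⟨0, rfl⟩

end bas

section ns

variable {R K L O : Type} [CommRing R] [IsDomain R] [IsPrincipalIdealRing R] [Field K]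
  [Algebra R K] [IsFractionRing R K]
  [Field L] [Algebra K L] [Algebra R L] [IsScalarTower R K L] [CommRing O]
  [IsDedekindDomain O] [Algebra O L] [IsFractionRing O L] [Algebra R O]
  [IsScalarTower R O L] [IsIntegralClosure O R L] {g : ℕ} {f : R[X]} {θ : L}


/-- a common denominator -/
theorem exists_den (h : IsG g K f θ) {t : O} (ht : algebraMap O L t = θ) (x : L) :
    ∃ (d : R) (z : O), d ≠ 0 ∧ algebraMap R L d * x = algebraMap O L z := by
  obtain ⟨⟨c, hc⟩, hint⟩ := IsLocalization.exist_integer_multiples (nonZeroDivisors R)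
    (Finset.univ : Finset (Fin (2 * g + 1))) (fun i => co h i x)
  have hint' : ∀ i, ∃ q : R, algebraMap R K q = algebraMap R K c * co h i x := by
    intro i
    obtain ⟨q, hq⟩ := hint i (Finset.mem_univ i)
    exact ⟨q, by rw [hq, Algebra.smul_def]⟩
  choose q hq using hint'
  refine ⟨c, ∑ i, q i • t ^ (i : ℕ), nonZeroDivisors.ne_zero hc, ?_⟩
  rw [sum_t ht]
  have h1 : Crd g θ q (algebraMap R L c * x) := by
    refine crd_of_co h fun i => ?_
    rw [smul_alg (K := K), map_smul, smul_eq_mul, hq]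
  exact h1

/-- integrality at the primes over `Q` -/
theorem exists_den_Q (h : IsG g K f θ) {t : O} (ht : algebraMap O L t = θ) {Q : R}
    (hQ : Irreducible Q) (x : L)
    (hx : ∀ 𝔓 : HeightOneSpectrum O, Ov Q 𝔓 → 𝔓.valuation L x ≤ 1) :
    ∃ (c : R) (z : O), ¬ Q ∣ c ∧ algebraMap R L c * x = algebraMap O L z := by
  obtain ⟨d, z, hd, hz⟩ := exists_den (K := K) (O := O) h ht x
  obtain ⟨c, hdc, hc⟩ :=
    (FiniteMultiplicity.of_not_isUnit hQ.not_isUnit hd).exists_eq_pow_mul_and_not_dvd
  have hint : ∀ 𝔓 : HeightOneSpectrum O, 𝔓.valuation L (algebraMap R L c * x) ≤ 1 := by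
    intro 𝔓
    by_cases hov : Ov Q 𝔓
    · rw [map_mul, IsScalarTower.algebraMap_apply R O L]
      exact mul_le_one' (𝔓.valuation_le_one _) (hx 𝔓 hov)
    · have h1 : 𝔓.valuation L (algebraMap R L Q) = 1 := by
        rw [IsScalarTower.algebraMap_apply R O L]
        exact 𝔓.valuation_eq_one_iff_notMem.mpr hov
      have h2 : algebraMap R L Q ^ (multiplicity Q d) * (algebraMap R L c * x) =
          algebraMap O L z := by
        rw [← hz]
        conv_rhs => rw [hdc]
        rw [map_mul, map_pow]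
        ring
      have h3 : 𝔓.valuation L (algebraMap O L z) ≤ 1 := 𝔓.valuation_le_one _
      rw [← h2, map_mul, map_pow, h1, one_pow, one_mul] at h3
      exact h3
  obtain ⟨z', hz'⟩ := HeightOneSpectrum.mem_integers_of_valuation_le_one L _ hint
  exact ⟨c, z', hc, hz'.symm⟩

include K in
/-- the intersection of the two primes -/
theorem mem_both {Q : R} (hQ : Irreducible Q) {𝔓 𝔮 : HeightOneSpectrum O}
    (hv1 : 𝔓.valuation L (algebraMap R L Q) = exp (-1 : ℤ))
    (hv2 : 𝔮.valuation L (algebraMap R L Q) = exp (-1 : ℤ))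
    (hall : ∀ 𝔓' : HeightOneSpectrum O, Ov Q 𝔓' → 𝔓' = 𝔓 ∨ 𝔓' = 𝔮) {w : O}
    (h1 : w ∈ 𝔓.asIdeal) (h2 : w ∈ 𝔮.asIdeal) : ∃ w' : O, w = Q • w' := by
  have hQL : algebraMap R L Q ≠ 0 := fun h0 =>
    hQ.ne_zero (algL_inj (K := K) (by rw [h0, map_zero]))
  have hle : ∀ 𝔓' : HeightOneSpectrum O, w ∈ 𝔓'.asIdeal →
      𝔓'.valuation L (algebraMap O L w) ≤ exp (-1 : ℤ) := by
    intro 𝔓' hw
    rw [HeightOneSpectrum.valuation_of_algebraMap]
    have := (𝔓'.intValuation_le_pow_iff_mem w 1).mpr (by rw [pow_one]; exact hw)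
    simpa using this
  have hint : ∀ 𝔓' : HeightOneSpectrum O,
      𝔓'.valuation L (algebraMap O L w / algebraMap R L Q) ≤ 1 := by
    intro 𝔓'
    by_cases hov : Ov Q 𝔓'
    · rcases hall 𝔓' hov with rfl | rfl
      · rw [map_div₀, hv1]
        exact div_le_one_of_le₀ (hle _ h1) zero_le'
      · rw [map_div₀, hv2]
        exact div_le_one_of_le₀ (hle _ h2) zero_le'
    · have h3 : 𝔓'.valuation L (algebraMap R L Q) = 1 := by
        rw [IsScalarTower.algebraMap_apply R O L]
        exact 𝔓'.valuation_eq_one_iff_notMem.mpr hov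
      rw [map_div₀, h3, div_one]
      exact 𝔓'.valuation_le_one _
  obtain ⟨w', hw'⟩ := HeightOneSpectrum.mem_integers_of_valuation_le_one L _ hint
  refine ⟨w', ?_⟩
  apply IsFractionRing.injective O L
  have h3 : algebraMap O L w' = algebraMap O L w / algebraMap R L Q := hw'
  rw [Algebra.smul_def, map_mul, ← IsScalarTower.algebraMap_apply R O L, h3]
  field_simp

/-- norms modulo `Q` -/
theorem norm_congr {n : ℕ} (b : Module.Basis (Fin n) R O) {Q : R} {a a' w : O}
    (h : a = a' + Q • w) : Ideal.Quotient.mk (Ideal.span {Q}) (Algebra.norm R a) =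
      Ideal.Quotient.mk (Ideal.span {Q}) (Algebra.norm R a') := by
  rw [Algebra.norm_eq_matrix_det b, Algebra.norm_eq_matrix_det b, RingHom.map_det,
    RingHom.map_det]
  congr 1
  ext i j
  have hQ : Ideal.Quotient.mk (Ideal.span {Q}) Q = 0 :=
    Ideal.Quotient.eq_zero_iff_mem.2 (Ideal.mem_span_singleton_self Q)
  rw [RingHom.mapMatrix_apply, RingHom.mapMatrix_apply, Matrix.map_apply, Matrix.map_apply, h,
    map_add, map_smul, Matrix.add_apply, Matrix.smul_apply, smul_eq_mul, map_add, map_mul, hQ,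
    zero_mul, add_zero]

/-- The integral case. -/
theorem ns_int (h : IsG g K f θ) {Q : R} (hQ : Irreducible Q) {t : O}
    (b : Module.Basis (Fin (2 * g + 1)) R O) (hb : ∀ i, b i = t ^ (i : ℕ))
    {𝔓 𝔮 : HeightOneSpectrum O} (hne : 𝔓 ≠ 𝔮) (ov1 : Ov Q 𝔓) (ht : t ∈ 𝔓.asIdeal)
    (hv1 : 𝔓.valuation L (algebraMap R L Q) = exp (-1 : ℤ))
    (hv2 : 𝔮.valuation L (algebraMap R L Q) = exp (-1 : ℤ))
    (hall : ∀ 𝔓' : HeightOneSpectrum O, Ov Q 𝔓' → 𝔓' = 𝔓 ∨ 𝔓' = 𝔮)
    {y : O} (hy1 : y ∉ 𝔓.asIdeal) (hy2 : y ∉ 𝔮.asIdeal)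
    (hn : IsSquare (Algebra.norm K (algebraMap O L y)))
    (hs : Sq1 𝔮 (algebraMap O L y)) : Sq1 𝔓 (algebraMap O L y) := by
  have hvy1 : 𝔓.valuation L (algebraMap O L y) = 1 := 𝔓.valuation_eq_one_iff_notMem.mpr hy1
  have hvy2 : 𝔮.valuation L (algebraMap O L y) = 1 := 𝔮.valuation_eq_one_iff_notMem.mpr hy2
  -- the norm
  obtain ⟨r, hr⟩ := hn
  rw [← norm_alg h b] at hr
  have hint : IsIntegral R r := by
    refine IsIntegral.of_pow (n := 2) (by norm_num) ?_
    rw [sq, ← hr]
    exact isIntegral_algebraMap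
  obtain ⟨m, rfl⟩ := IsIntegrallyClosed.isIntegral_iff.mp hint
  rw [← map_mul] at hr
  have hm := IsFractionRing.injective R K hr
  -- the square root at `𝔮`
  obtain ⟨s, hs⟩ := hs
  rw [hvy2] at hs
  have hs1 : 𝔮.valuation L s ≤ 1 := by
    by_contra hgt
    push Not at hgt
    have h3 : 𝔮.valuation L (algebraMap O L y) < 𝔮.valuation L (s ^ 2) := by
      rw [hvy2, map_pow]
      exact one_lt_pow' hgt (by norm_num)
    have h4 : 𝔮.valuation L (algebraMap O L y - s ^ 2) = 𝔮.valuation L (s ^ 2) := by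
      rw [Valuation.map_sub_swap]
      exact Valuation.map_sub_eq_of_lt_left _ h3
    rw [h4] at hs
    exact absurd (hvy2 ▸ h3) (not_lt.mpr hs.le)
  obtain ⟨z, hz⟩ := 𝔮.exists_valuation_sub_lt_of_integer hs1 1
  rw [Units.val_one] at hz
  have hyz : y - z ^ 2 ∈ 𝔮.asIdeal := by
    rw [← 𝔮.valuation_lt_one_iff_mem (K := L)]
    change 𝔮.valuation L (algebraMap O L (y - z ^ 2)) < 1
    have e : algebraMap O L (y - z ^ 2) = (algebraMap O L y - s ^ 2) -
        (algebraMap O L z - s) * (algebraMap O L z + s) := by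
      rw [map_sub, map_pow]
      ring
    rw [e]
    refine Valuation.map_sub_lt _ hs ?_
    rw [map_mul]
    have h5 : 𝔮.valuation L (algebraMap O L z + s) ≤ 1 :=
      Valuation.map_add_le _ (𝔮.valuation_le_one _) hs1
    calc 𝔮.valuation L (algebraMap O L z - s) * 𝔮.valuation L (algebraMap O L z + s)
        ≤ 𝔮.valuation L (algebraMap O L z - s) * 1 := mul_le_mul_right h5 _
      _ = 𝔮.valuation L (algebraMap O L z - s) := mul_one _
      _ < 1 := hz
  -- the idempotents
  have hcop : IsCoprime 𝔓.asIdeal 𝔮.asIdeal := by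
    rw [Ideal.isCoprime_iff_sup_eq]
    exact 𝔓.isMaximal.coprime_of_ne 𝔮.isMaximal fun h => hne (HeightOneSpectrum.ext h)
  obtain ⟨i, hi, j, hj, hij⟩ := Ideal.isCoprime_iff_exists.mp hcop
  -- constant coordinates
  have hrep : ∀ x : O, x - algebraMap R O (b.repr x 0) ∈ 𝔓.asIdeal := by
    intro x
    have h1 : x - algebraMap R O (b.repr x 0) =
        ∑ l ∈ Finset.univ.erase (0 : Fin (2 * g + 1)), b.repr x l • b l := by
      have h2 := b.sum_repr x
      rw [← Finset.add_sum_erase _ _ (Finset.mem_univ (0 : Fin (2 * g + 1)))] at h2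
      have h3 : algebraMap R O (b.repr x 0) = b.repr x 0 • b 0 := by
        rw [Algebra.smul_def, hb]
        simp
      rw [h3]
      exact sub_eq_of_eq_add' h2.symm
    rw [h1]
    refine Ideal.sum_mem _ fun l hl => ?_
    rw [Algebra.smul_def, hb]
    refine Ideal.mul_mem_left _ _ ?_
    have hl0 : (l : ℕ) ≠ 0 := fun h0 => (Finset.mem_erase.1 hl).1 (Fin.ext (by simpa using h0))
    exact Ideal.pow_mem_of_mem _ ht _ (Nat.pos_of_ne_zero hl0)
  obtain ⟨c, hc⟩ : ∃ c, c = b.repr y 0 := ⟨_, rfl⟩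
  have hyc : y - algebraMap R O c ∈ 𝔓.asIdeal := by
    rw [hc]
    exact hrep y
  obtain ⟨S, hS⟩ : ∃ S : O, S = z * i + j := ⟨_, rfl⟩
  have hSz : S - z ∈ 𝔮.asIdeal := by
    have e : S - z = (1 - z) * j := by
      rw [hS]
      linear_combination z * hij
    rw [e]
    exact Ideal.mul_mem_left _ _ hj
  have hS1 : S - 1 ∈ 𝔓.asIdeal := by
    have e : S - 1 = (z - 1) * i := by
      rw [hS]
      linear_combination hij
    rw [e]
    exact Ideal.mul_mem_left _ _ hi
  obtain ⟨e', he'⟩ : ∃ e' : O, e' = 1 + algebraMap R O (c - 1) * j := ⟨_, rfl⟩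
  have hboth := fun {w : O} => mem_both (K := K) hQ hv1 hv2 hall (w := w)
  obtain ⟨w', hw'⟩ := hboth (w := y - S ^ 2 * e') (by
    have e : y - S ^ 2 * e' = (y - algebraMap R O c) - (S + 1) * (S - 1) * e' +
        algebraMap R O (c - 1) * i := by
      rw [he', map_sub, map_one]
      linear_combination (algebraMap R O c - 1) * (-1) * hij
    rw [e]
    exact Ideal.add_mem _ (Ideal.sub_mem _ hyc (Ideal.mul_mem_right _ _
      (Ideal.mul_mem_left _ _ hS1))) (Ideal.mul_mem_left _ _ hi)) (by
    have e : y - S ^ 2 * e' = (y - z ^ 2) - (S + z) * (S - z) -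
        S ^ 2 * algebraMap R O (c - 1) * j := by
      rw [he']
      ring
    rw [e]
    exact Ideal.sub_mem _ (Ideal.sub_mem _ hyz (Ideal.mul_mem_left _ _ hSz))
      (Ideal.mul_mem_left _ _ hj))
  -- the inverse of `S`
  have hS2 : S ∉ 𝔮.asIdeal := by
    intro h0
    apply hy2
    have e : y = (y - z ^ 2) + z * (S - (S - z)) := by ring
    rw [e]
    exact Ideal.add_mem _ hyz (Ideal.mul_mem_left _ _ (Ideal.sub_mem _ h0 hSz))
  obtain ⟨r2, i2, hi2, hr2⟩ := 𝔮.isMaximal.exists_inv hS2
  obtain ⟨w2, hw2⟩ := hboth (w := S * (j + r2 * i) - 1) (by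
    have e : S * (j + r2 * i) - 1 = (S - 1) * j + (S * r2 - 1) * i := by
      linear_combination hij
    rw [e]
    exact Ideal.add_mem _ (Ideal.mul_mem_right _ _ hS1) (Ideal.mul_mem_left _ _ hi)) (by
    have e : S * (j + r2 * i) - 1 = (S - S * r2) * j - i2 := by
      linear_combination (S * r2) * hij + hr2
    rw [e]
    exact Ideal.sub_mem _ (Ideal.mul_mem_left _ _ hj) hi2)
  obtain ⟨S', hS'⟩ : ∃ S' : O, S' = j + r2 * i := ⟨_, rfl⟩
  rw [← hS'] at hw2
  -- the norm of `e'`
  have hjt : ∀ l : Fin (2 * g + 1), l ≠ 0 → ∃ w : O, j * b l = Q • w := by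
    intro l hl
    refine hboth ?_ (Ideal.mul_mem_right _ _ hj)
    rw [hb]
    have hl0 : (l : ℕ) ≠ 0 := fun h0 => hl (Fin.ext (by simpa using h0))
    exact Ideal.mul_mem_left _ _ (Ideal.pow_mem_of_mem _ ht _ (Nat.pos_of_ne_zero hl0))
  set π := Ideal.Quotient.mk (Ideal.span {Q} : Ideal R) with hπ
  have hπQ : π Q = 0 := Ideal.Quotient.eq_zero_iff_mem.2 (Ideal.mem_span_singleton_self Q)
  have hj0 : π (b.repr j 0) = 1 := by
    have h1 : algebraMap R O (b.repr j 0 - 1) ∈ 𝔓.asIdeal := by
      have e : algebraMap R O (b.repr j 0 - 1) = - i - (j - algebraMap R O (b.repr j 0)) := by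
        rw [map_sub, map_one]
        linear_combination hij
      rw [e]
      exact Ideal.sub_mem _ (Ideal.neg_mem_iff _ |>.2 hi) (hrep j)
    rw [ov_iff hQ ov1] at h1
    have h2 : π (b.repr j 0 - 1) = 0 :=
      Ideal.Quotient.eq_zero_iff_mem.2 (Ideal.mem_span_singleton.2 h1)
    rw [map_sub, map_one, sub_eq_zero] at h2
    exact h2
  have hne' : π (Algebra.norm R e') = π c := by
    rw [Algebra.norm_eq_matrix_det b, RingHom.map_det]
    have hent : ∀ l l' : Fin (2 * g + 1), π (Algebra.leftMulMatrix b e' l l') =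
        (if l = l' then 1 else 0) + π (c - 1) * π (b.repr (j * b l') l) := by
      intro l l'
      rw [Algebra.leftMulMatrix_eq_repr_mul]
      have e : e' * b l' = b l' + (c - 1) • (j * b l') := by
        rw [he', Algebra.smul_def]
        ring
      rw [e, map_add, map_smul, Finsupp.add_apply, Finsupp.smul_apply, smul_eq_mul, map_add,
        map_mul, Module.Basis.repr_self, Finsupp.single_apply]
      congr 1
      by_cases hl : l = l'
      · rw [if_pos hl, if_pos hl.symm, map_one]
      · rw [if_neg hl, if_neg (fun h' => hl h'.symm), map_zero]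
    have hent' : ∀ l l' : Fin (2 * g + 1), l' ≠ 0 → π (Algebra.leftMulMatrix b e' l l') =
        if l = l' then 1 else 0 := by
      intro l l' hl'
      obtain ⟨w, hw⟩ := hjt l' hl'
      rw [hent, hw, map_smul, Finsupp.smul_apply, smul_eq_mul, map_mul π Q, hπQ, zero_mul,
        mul_zero, add_zero]
    rw [Matrix.det_of_lowerTriangular]
    · rw [Finset.prod_eq_single (0 : Fin (2 * g + 1))]
      · rw [RingHom.mapMatrix_apply, Matrix.map_apply, hent, if_pos rfl]
        have e : b 0 = 1 := by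
          rw [hb]
          simp
        rw [e, mul_one, hj0, map_sub, map_one]
        ring
      · intro l _ hl
        rw [RingHom.mapMatrix_apply, Matrix.map_apply, hent' l l hl, if_pos rfl]
      · intro h0
        exact absurd (Finset.mem_univ _) h0
    · intro l l' hll
      have hlt : l < l' := OrderDual.toDual_lt_toDual.1 hll
      rw [RingHom.mapMatrix_apply, Matrix.map_apply, hent' l l' (by
        intro h0
        rw [h0] at hlt
        exact absurd hlt (Fin.not_lt_zero l)), if_neg hlt.ne]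
  -- assembly
  have n1 : π (Algebra.norm R y) = π (Algebra.norm R S) ^ 2 * π (Algebra.norm R e') := by
    rw [norm_congr b (Q := Q) (a' := S ^ 2 * e') (w := w') (by rw [← hw']; ring), map_mul, map_pow,
      map_mul, map_pow]
  have n2 : π (Algebra.norm R S) * π (Algebra.norm R S') = 1 := by
    rw [← map_mul, ← map_mul, norm_congr b (Q := Q) (a' := 1) (w := w2) (by rw [← hw2]; ring),
      map_one, map_one]
  have n3 : π (c - (Algebra.norm R S' * m) ^ 2) = 0 := by
    rw [hne', hm, map_mul] at n1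
    rw [map_sub, map_pow, map_mul, sub_eq_zero]
    have e : π c = (π (Algebra.norm R S) * π (Algebra.norm R S')) ^ 2 * π c := by
      rw [n2]
      ring
    rw [e]
    linear_combination (-(π (Algebra.norm R S')) ^ 2) * n1
  have n4 : Q ∣ c - (Algebra.norm R S' * m) ^ 2 :=
    Ideal.mem_span_singleton.1 (Ideal.Quotient.eq_zero_iff_mem.1 n3)
  refine ⟨algebraMap R L (Algebra.norm R S' * m), ?_⟩
  rw [hvy1, ← map_pow, IsScalarTower.algebraMap_apply R O L, ← map_sub]
  refine (𝔓.valuation_lt_one_iff_mem (K := L) _).mpr ?_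
  have e8 : y - algebraMap R O ((Algebra.norm R S' * m) ^ 2) = (y - algebraMap R O c) +
      algebraMap R O (c - (Algebra.norm R S' * m) ^ 2) := by
    rw [map_sub]
    ring
  rw [e8]
  exact Ideal.add_mem _ hyc ((ov_iff hQ ov1 _).2 n4)

end ns

end Pool.Agent.N691.PQ
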